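import Mathlib

/-!
# Independent sets and transitive tournaments in directed graphs: definitions and statements
-/

set_option autoImplicit false

namespace Pool.Agent.E8helper61.DR

open Finset Classical

variable {V : Type} [Fintype V]

/-- `S` is independent in the directed graph `A`. -/
def Indep (A : V → V → Prop) (S : Finset V) : Prop := ∀ u ∈ S, ∀ v ∈ S, ¬ A u v

/-- The neighbours of `v`. -/
noncomputable def nb (A : V → V → Prop) (v : V) : Finset V :=
  univ.filter fun u => A u v ∨ A v u

/-- There is no transitive triangle in `S`. -/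
def TransFree (A : V → V → Prop) (S : Finset V) : Prop :=
  ∀ u ∈ S, ∀ v ∈ S, ∀ w ∈ S, ¬ (A u v ∧ A u w ∧ A v w)

/-- The number of arcs inside `S`. -/
noncomputable def arcs (A : V → V → Prop) (S : Finset V) : ℕ :=
  ((S ×ˢ S).filter fun x => A x.1 x.2).card

/-- The number of transitive triangles inside `S`. -/
noncomputable def tris (A : V → V → Prop) (S : Finset V) : ℕ :=
  ((S ×ˢ S ×ˢ S).filter fun x => A x.1 x.2.1 ∧ A x.1 x.2.2 ∧ A x.2.1 x.2.2).card

/-- A directed graph without transitive triangles and with all degrees at most `d` has an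
independent set of size at least `|V| log d / (64 d)`. -/
def S_LOC : Prop := ∀ (V : Type) [Fintype V] (A : V → V → Prop), (∀ v, ¬ A v v) →
  TransFree A univ → ∀ d : ℝ, 1 ≤ d → (∀ v, ((nb A v).card : ℝ) ≤ d) →
  ∃ W : Finset V, Indep A W ∧ (Fintype.card V : ℝ) * Real.log d ≤ 64 * d * W.card

/-- Sampling: a large set of vertices without transitive triangles and of small average degree. -/
def S_SAM : Prop := ∀ (V : Type) [Fintype V] (A : V → V → Prop), (∀ v, ¬ A v v) →
  ∀ D K : ℝ, 1 ≤ D → 1 ≤ K → ∀ q : ℕ, 0 < q → 4 * D * K ≤ (q : ℝ) ^ 2 →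
  (arcs A univ : ℝ) ≤ Fintype.card V * D → (tris A univ : ℝ) ≤ Fintype.card V * D * K →
  ∃ U : Finset V, TransFree A U ∧ (Fintype.card V : ℝ) ≤ 2 * q * U.card ∧
    (arcs A U : ℝ) * q ≤ 4 * D * U.card

end Pool.Agent.E8helper61.DR
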