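import Pool.Agent.E8helper61.DR.Defs

/-!
# Independent sets in directed graphs without transitive triangles
-/

set_option autoImplicit false

namespace Pool.Agent.E8helper61.DR

open Finset Classical

/-- Jensen's inequality for the sizes of the members of a large family. -/
lemma family_avg {V : Type} (X : Finset V) (F : Finset (Finset V))
    (hF : ∀ S ∈ F, S ⊆ X) (hI : 2 ^ X.card ≤ F.card ^ 2) :
    (1 / 4) * (F.card : ℝ) * Real.log F.card ≤ ∑ S ∈ F, (S.card : ℝ) := by
  have hpos : 0 < F.card := by
    rcases Nat.eq_zero_or_pos F.card with h | h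
    · rw [h] at hI
      have := Nat.one_le_two_pow (n := X.card)
      simp at hI
    · exact h
  have hposR : (0 : ℝ) < F.card := by exact_mod_cast hpos
  set I : ℝ := (F.card : ℝ) with hIdef
  -- Jensen
  have hj : Real.exp (∑ S ∈ F, (1 / I) * (-(S.card : ℝ) * Real.log 8))
      ≤ ∑ S ∈ F, (1 / I) * Real.exp (-(S.card : ℝ) * Real.log 8) := by
    have := convexOn_exp.map_sum_le (t := F) (w := fun _ => 1 / I)
      (p := fun S => -(S.card : ℝ) * Real.log 8) (fun _ _ => by positivity)
      (by rw [Finset.sum_const, nsmul_eq_mul, ← hIdef]; field_simp) (fun _ _ => Set.mem_univ _)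
    simpa [smul_eq_mul] using this
  have hexp : ∀ n : ℕ, Real.exp (-(n : ℝ) * Real.log 8) = (1 / 8 : ℝ) ^ n := by
    intro n
    rw [show -(n : ℝ) * Real.log 8 = (n : ℝ) * Real.log (1 / 8) by
      rw [one_div, Real.log_inv]; ring, mul_comm, Real.exp_mul, Real.exp_log (by norm_num),
      Real.rpow_natCast]
  have hsum : ∑ S ∈ F, Real.exp (-(S.card : ℝ) * Real.log 8) ≤ (9 / 8 : ℝ) ^ X.card := by
    calc ∑ S ∈ F, Real.exp (-(S.card : ℝ) * Real.log 8)
        = ∑ S ∈ F, (1 / 8 : ℝ) ^ S.card := Finset.sum_congr rfl fun S _ => hexp _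
      _ ≤ ∑ S ∈ X.powerset, (1 / 8 : ℝ) ^ S.card := by
          refine Finset.sum_le_sum_of_subset_of_nonneg (fun S hS => ?_) fun _ _ _ => by positivity
          exact Finset.mem_powerset.2 (hF S hS)
      _ = (9 / 8 : ℝ) ^ X.card := by
          have := Finset.sum_pow_mul_eq_add_pow (1 / 8 : ℝ) 1 X
          simp only [one_pow, mul_one] at this
          rw [this]
          norm_num
  rw [← Finset.mul_sum, ← Finset.mul_sum] at hj
  have h1 : Real.exp (1 / I * ∑ S ∈ F, (-(S.card : ℝ) * Real.log 8)) ≤ 1 / I * (9 / 8 : ℝ) ^ X.card :=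
    hj.trans (mul_le_mul_of_nonneg_left hsum (by positivity))
  have h2 := Real.log_le_log (Real.exp_pos _) h1
  rw [Real.log_exp, Real.log_mul (by positivity) (by positivity), Real.log_pow, one_div,
    Real.log_inv] at h2
  have h3 : ∑ S ∈ F, (-(S.card : ℝ) * Real.log 8) = -(∑ S ∈ F, (S.card : ℝ)) * Real.log 8 := by
    rw [← Finset.sum_mul, Finset.sum_neg_distrib]
  rw [h3] at h2
  set T : ℝ := ∑ S ∈ F, (S.card : ℝ) with hT
  have hlog98 : Real.log (9 / 8) ≤ 1 / 8 := by
    have := Real.log_le_sub_one_of_pos (show (0 : ℝ) < 9 / 8 by norm_num)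
    linarith
  have hlog2a := Real.log_two_gt_d9
  have hlog2b := Real.log_two_lt_d9
  have hlog8 : Real.log 8 = 3 * Real.log 2 := by
    rw [show (8 : ℝ) = 2 ^ 3 by norm_num, Real.log_pow]; norm_num
  have hx : (X.card : ℝ) * Real.log 2 ≤ 2 * Real.log I := by
    have h4 : ((2 : ℝ)) ^ X.card ≤ I ^ 2 := by rw [hIdef]; exact_mod_cast hI
    have h5 := Real.log_le_log (by positivity) h4
    rwa [Real.log_pow, Real.log_pow, Nat.cast_ofNat] at h5
  have hlogI : 0 ≤ Real.log I := by
    apply Real.log_nonneg
    rw [hIdef]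
    exact_mod_cast hpos
  -- x * log (9/8) ≤ x / 8 ≤ (2 / log 2) * log I / 8
  have hx2 : (X.card : ℝ) * Real.log (9 / 8) ≤ (4 / 11) * Real.log I := by
    have hxc : (X.card : ℝ) ≤ (32 / 11) * Real.log I := by
      have : (11 / 16 : ℝ) * X.card ≤ (X.card : ℝ) * Real.log 2 := by
        have hn : (0 : ℝ) ≤ X.card := Nat.cast_nonneg _
        nlinarith
      linarith
    have hn : (0 : ℝ) ≤ X.card := Nat.cast_nonneg _
    nlinarith
  -- T * log 8 / I ≥ log I - x log (9/8) ≥ (7/11) log I
  have h6 : (7 / 11) * Real.log I ≤ I⁻¹ * (T * Real.log 8) := by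
    have : I⁻¹ * (-T * Real.log 8) = -(I⁻¹ * (T * Real.log 8)) := by ring
    rw [this] at h2
    linarith
  have h7 : (7 / 11) * Real.log I * I ≤ T * Real.log 8 := by
    have := mul_le_mul_of_nonneg_right h6 hposR.le
    rwa [show I⁻¹ * (T * Real.log 8) * I = T * Real.log 8 by field_simp] at this
  rw [hlog8] at h7
  have hT0 : 0 ≤ T := Finset.sum_nonneg fun _ _ => Nat.cast_nonneg _
  have h8 : T * (3 * Real.log 2) ≤ T * (28 / 11) := by
    apply mul_le_mul_of_nonneg_left _ hT0
    linarith
  nlinarith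

/-- the numerical core -/
lemma core (d : ℝ) (hd : 1 ≤ d) {V : Type} (X : Finset V) (F : Finset (Finset V))
    (hF : ∀ S ∈ F, S ⊆ X) (hI : 2 ^ X.card ≤ F.card ^ 2) :
    Real.log d / 16 * (1 + F.card) ≤ d + ∑ S ∈ F, (S.card : ℝ) := by
  have h := family_avg X F hF hI
  have hpos : 0 < F.card := by
    rcases Nat.eq_zero_or_pos F.card with h | h
    · rw [h] at hI
      have := Nat.one_le_two_pow (n := X.card)
      simp at hI
    · exact h
  have hI1 : (1 : ℝ) ≤ F.card := by exact_mod_cast hpos
  set I : ℝ := (F.card : ℝ) with hIdef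
  set T : ℝ := ∑ S ∈ F, (S.card : ℝ) with hT
  have hT0 : 0 ≤ T := Finset.sum_nonneg fun _ _ => Nat.cast_nonneg _
  have hlogd : 0 ≤ Real.log d := Real.log_nonneg hd
  set s : ℝ := Real.sqrt d with hs
  have hs1 : 1 ≤ s := by rw [hs]; exact Real.one_le_sqrt.2 hd
  have hsd : s ^ 2 = d := Real.sq_sqrt (by linarith)
  have hlogs : Real.log d = 2 * Real.log s := by
    rw [← hsd, Real.log_pow]; norm_num
  have hlogs' : Real.log s ≤ s - 1 := Real.log_le_sub_one_of_pos (by linarith)
  rcases le_total I s with hle | hle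
  · have h1 : Real.log d / 16 * (1 + I) ≤ (2 * (s - 1)) / 16 * (1 + s) := by
      apply mul_le_mul _ (by linarith) (by linarith) (by linarith)
      linarith
    nlinarith
  · have h2 : Real.log s ≤ Real.log I := Real.log_le_log (by linarith) hle
    have h3 : (1 / 4) * I * Real.log s ≤ T := by
      refine le_trans ?_ h
      apply mul_le_mul_of_nonneg_left h2 (by positivity)
    have h4 : Real.log d / 16 * (1 + I) ≤ Real.log d / 16 * (2 * I) := by
      apply mul_le_mul_of_nonneg_left (by linarith) (by positivity)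
    have h5 : Real.log d / 16 * (2 * I) = (1 / 4) * I * Real.log s := by
      rw [hlogs]; ring
    linarith

section
variable {V : Type} [Fintype V] (A : V → V → Prop)

lemma mem_nb (v u : V) : u ∈ nb A v ↔ A u v ∨ A v u := by
  simp [nb]

lemma nb_symm (v u : V) : u ∈ nb A v ↔ v ∈ nb A u := by
  rw [mem_nb, mem_nb, or_comm]

/-- The inequality for one vertex. -/
lemma vertex_ineq (hA : ∀ v, ¬ A v v) (hT : TransFree A univ) (d : ℝ) (hd : 1 ≤ d) (v : V) :
    Real.log d / 16 * ((univ.filter (Indep A)).card : ℝ) ≤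
      ∑ W ∈ univ.filter (Indep A), ((if v ∈ W then d else 0) + ((nb A v ∩ W).card : ℝ)) := by
  set P : Finset (Finset V) := univ.filter (Indep A) with hP
  set N : Finset V := insert v (nb A v) with hN
  have hmaps : ∀ W ∈ P, W \ N ∈ P := by
    intro W hW
    rw [hP, mem_filter] at hW ⊢
    exact ⟨mem_univ _, fun a ha b hb => hW.2 a (mem_sdiff.1 ha).1 b (mem_sdiff.1 hb).1⟩
  rw [← Finset.sum_fiberwise_of_maps_to hmaps, Finset.card_eq_sum_card_fiberwise hmaps]
  rw [Nat.cast_sum, Finset.mul_sum]
  refine Finset.sum_le_sum fun Y hY => ?_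
  -- the fibre
  set Φ : Finset (Finset V) := P.filter fun W => W \ N = Y with hΦ
  rcases Finset.eq_empty_or_nonempty Φ with he | hne
  · rw [he]; simp
  obtain ⟨W0, hW0⟩ := hne
  rw [hΦ, mem_filter] at hW0
  have hYP : Indep A Y := (mem_filter.1 hY).2
  have hYN : ∀ y ∈ Y, y ∉ N := by
    intro y hy
    rw [← hW0.2, mem_sdiff] at hy
    exact hy.2
  set X : Finset V := (nb A v).filter fun u => ∀ y ∈ Y, ¬ A u y ∧ ¬ A y u with hX
  set F : Finset (Finset V) := X.powerset.filter (Indep A) with hF
  have hvN : v ∈ N := mem_insert_self _ _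
  have hvY : v ∉ Y := fun h => hYN v h hvN
  have hnbN : ∀ u ∈ nb A v, u ∈ N := fun u hu => mem_insert_of_mem hu
  have hvnb : v ∉ nb A v := by rw [mem_nb]; rintro (h | h) <;> exact hA v h
  -- members of the fibre containing v
  have hin : Φ.filter (fun W => v ∈ W) = {insert v Y} := by
    ext W
    rw [mem_filter, hΦ, mem_filter, mem_singleton]
    constructor
    · rintro ⟨⟨hW, hWY⟩, hv⟩
      have hWi : Indep A W := (mem_filter.1 hW).2
      ext u
      rw [mem_insert]
      constructor
      · intro hu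
        by_cases huv : u = v
        · exact Or.inl huv
        · right
          rw [← hWY, mem_sdiff]
          refine ⟨hu, fun huN => ?_⟩
          rcases mem_insert.1 huN with h | h
          · exact huv h
          · rcases (mem_nb A v u).1 h with h | h
            · exact hWi u hu v hv h
            · exact hWi v hv u hu h
      · rintro (h | h)
        · rw [h]; exact hv
        · rw [← hWY] at h; exact (mem_sdiff.1 h).1
    · intro h
      subst h
      refine ⟨⟨?_, ?_⟩, mem_insert_self _ _⟩
      · rw [hP, mem_filter]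
        refine ⟨mem_univ _, fun a ha b hb hab => ?_⟩
        rcases mem_insert.1 ha with ha | ha <;> rcases mem_insert.1 hb with hb | hb
        · rw [ha, hb] at hab; exact hA v hab
        · rw [ha] at hab
          exact hYN b hb (hnbN b ((mem_nb A v b).2 (Or.inr hab)))
        · rw [hb] at hab
          exact hYN a ha (hnbN a ((mem_nb A v a).2 (Or.inl hab)))
        · exact hYP a ha b hb hab
      · ext u
        rw [mem_sdiff, mem_insert]
        constructor
        · rintro ⟨h | h, hu⟩
          · rw [h] at hu; exact absurd hvN hu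
          · exact h
        · intro h
          exact ⟨Or.inr h, hYN u h⟩
  -- members of the fibre not containing v
  have hout : ∀ g : ℕ → ℝ, ∑ W ∈ Φ.filter (fun W => v ∉ W), g (nb A v ∩ W).card
      = ∑ S ∈ F, g S.card := by
    intro g
    refine Finset.sum_bij (fun W _ => nb A v ∩ W) ?_ ?_ ?_ ?_
    · intro W hW
      rw [mem_filter, hΦ, mem_filter] at hW
      obtain ⟨⟨hWP, hWY⟩, hv⟩ := hW
      have hWi : Indep A W := (mem_filter.1 hWP).2
      have hYW : ∀ y ∈ Y, y ∈ W := fun y hy => by rw [← hWY] at hy; exact (mem_sdiff.1 hy).1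
      rw [hF, mem_filter, mem_powerset]
      refine ⟨fun u hu => ?_, fun a ha b hb => hWi a (mem_inter.1 ha).2 b (mem_inter.1 hb).2⟩
      rw [hX, mem_filter]
      refine ⟨(mem_inter.1 hu).1, fun y hy => ⟨?_, ?_⟩⟩
      · exact hWi u (mem_inter.1 hu).2 y (hYW y hy)
      · exact hWi y (hYW y hy) u (mem_inter.1 hu).2
    · intro W1 h1 W2 h2 heq
      rw [mem_filter, hΦ, mem_filter] at h1 h2
      have key : ∀ W : Finset V, W \ N = Y → v ∉ W → W = Y ∪ (nb A v ∩ W) := by
        intro W hWY hv
        ext u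
        rw [mem_union, mem_inter, ← hWY, mem_sdiff, hN, mem_insert]
        constructor
        · intro hu
          by_cases hn : u ∈ nb A v
          · exact Or.inr ⟨hn, hu⟩
          · left
            refine ⟨hu, ?_⟩
            rintro (h | h)
            · rw [h] at hu; exact hv hu
            · exact hn h
        · rintro (h | h)
          · exact h.1
          · exact h.2
      have heq' : nb A v ∩ W1 = nb A v ∩ W2 := heq
      rw [key W1 h1.1.2 h1.2, key W2 h2.1.2 h2.2, heq']
    · intro S hS
      rw [hF, mem_filter, mem_powerset] at hS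
      have hSX : ∀ u ∈ S, u ∈ nb A v ∧ ∀ y ∈ Y, ¬ A u y ∧ ¬ A y u := fun u hu => by
        have := hS.1 hu
        rw [hX, mem_filter] at this
        exact this
      refine ⟨Y ∪ S, ?_, ?_⟩
      · rw [mem_filter, hΦ, mem_filter, hP, mem_filter]
        refine ⟨⟨⟨mem_univ _, fun a ha b hb => ?_⟩, ?_⟩, ?_⟩
        · rcases mem_union.1 ha with ha | ha <;> rcases mem_union.1 hb with hb | hb
          · exact hYP a ha b hb
          · exact ((hSX b hb).2 a ha).2
          · exact ((hSX a ha).2 b hb).1
          · exact hS.2 a ha b hb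
        · ext u
          rw [mem_sdiff, mem_union]
          constructor
          · rintro ⟨h | h, hu⟩
            · exact h
            · exact absurd (hnbN u (hSX u h).1) hu
          · intro h
            exact ⟨Or.inl h, hYN u h⟩
        · rw [mem_union]
          rintro (h | h)
          · exact hvY h
          · exact hvnb (hSX v h).1
      · ext u
        rw [mem_inter, mem_union]
        constructor
        · rintro ⟨h1, h2 | h2⟩
          · exact absurd (hnbN u h1) (hYN u h2)
          · exact h2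
        · intro h
          exact ⟨(hSX u h).1, Or.inr h⟩
    · intro W hW
      rfl
  have hcard : (Φ.card : ℝ) = 1 + F.card := by
    have h1 := Finset.card_filter_add_card_filter_not (s := Φ) (fun W => v ∈ W)
    rw [hin, card_singleton] at h1
    have h2 := hout (fun _ => 1)
    rw [Finset.sum_const, Finset.sum_const, nsmul_eq_mul, nsmul_eq_mul, mul_one, mul_one] at h2
    rw [← h1]
    push_cast
    rw [h2]
  have hsumF : ∑ W ∈ Φ, ((if v ∈ W then d else 0) + ((nb A v ∩ W).card : ℝ))
      ≥ d + ∑ S ∈ F, (S.card : ℝ) := by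
    rw [← Finset.sum_filter_add_sum_filter_not Φ (fun W => v ∈ W), hin, Finset.sum_singleton]
    have h1 : ∑ W ∈ Φ.filter (fun W => v ∉ W), ((if v ∈ W then d else 0) + ((nb A v ∩ W).card : ℝ))
        = ∑ S ∈ F, (S.card : ℝ) := by
      rw [← hout (fun n => (n : ℝ))]
      refine Finset.sum_congr rfl fun W hW => ?_
      rw [if_neg (mem_filter.1 hW).2, zero_add]
    rw [h1, if_pos (mem_insert_self _ _)]
    have : (0 : ℝ) ≤ ((nb A v ∩ insert v Y).card : ℝ) := Nat.cast_nonneg _
    linarith
  -- the family F is large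
  have hFX : ∀ S ∈ F, S ⊆ X := fun S hS => mem_powerset.1 (mem_filter.1 hS).1
  have hbig : 2 ^ X.card ≤ F.card ^ 2 := by
    have hp : ∀ Z : Finset V, Z ⊆ X → Indep A Z → 2 ^ Z.card ≤ F.card := by
      intro Z hZ hZi
      rw [← card_powerset]
      refine card_le_card fun S hS => ?_
      rw [mem_powerset] at hS
      rw [hF, mem_filter, mem_powerset]
      exact ⟨hS.trans hZ, fun a ha b hb => hZi a (hS ha) b (hS hb)⟩
    have h1 := hp (X.filter fun u => A u v) (filter_subset _ _) (by
      intro a ha b hb hab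
      exact hT a (mem_univ _) b (mem_univ _) v (mem_univ _)
        ⟨hab, (mem_filter.1 ha).2, (mem_filter.1 hb).2⟩)
    have h2 := hp (X.filter fun u => A v u) (filter_subset _ _) (by
      intro a ha b hb hab
      exact hT v (mem_univ _) a (mem_univ _) b (mem_univ _)
        ⟨(mem_filter.1 ha).2, (mem_filter.1 hb).2, hab⟩)
    have h3 : X.card ≤ (X.filter fun u => A u v).card + (X.filter fun u => A v u).card := by
      have : X ⊆ (X.filter fun u => A u v) ∪ (X.filter fun u => A v u) := by
        intro u hu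
        have hu' := hu
        rw [hX, mem_filter] at hu'
        rcases (mem_nb A v u).1 hu'.1 with h | h
        · exact mem_union_left _ (mem_filter.2 ⟨hu, h⟩)
        · exact mem_union_right _ (mem_filter.2 ⟨hu, h⟩)
      exact (card_le_card this).trans (card_union_le _ _)
    calc 2 ^ X.card ≤ 2 ^ ((X.filter fun u => A u v).card + (X.filter fun u => A v u).card) :=
          Nat.pow_le_pow_right (by norm_num) h3
      _ = 2 ^ (X.filter fun u => A u v).card * 2 ^ (X.filter fun u => A v u).card := pow_add _ _ _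
      _ ≤ F.card * F.card := Nat.mul_le_mul h1 h2
      _ = F.card ^ 2 := (sq _).symm
  have hcore := core d hd X F hFX hbig
  calc Real.log d / 16 * (Φ.card : ℝ) = Real.log d / 16 * (1 + F.card) := by rw [hcard]
    _ ≤ d + ∑ S ∈ F, (S.card : ℝ) := hcore
    _ ≤ _ := hsumF

end

theorem t_LOC : S_LOC := by
  intro V _ A hA hT d hd hdeg
  set P : Finset (Finset V) := univ.filter (Indep A) with hP
  have h1 : ∑ v : V, Real.log d / 16 * (P.card : ℝ) ≤
      ∑ v : V, ∑ W ∈ P, ((if v ∈ W then d else 0) + ((nb A v ∩ W).card : ℝ)) :=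
    Finset.sum_le_sum fun v _ => vertex_ineq A hA hT d hd v
  rw [Finset.sum_comm, Finset.sum_const, nsmul_eq_mul, card_univ] at h1
  have h2 : ∀ W ∈ P, ∑ v : V, ((if v ∈ W then d else 0) + ((nb A v ∩ W).card : ℝ))
      ≤ 2 * d * W.card := by
    intro W _
    rw [Finset.sum_add_distrib]
    have ha : ∑ v : V, (if v ∈ W then d else 0) = d * W.card := by
      rw [← Finset.sum_filter, Finset.sum_const, nsmul_eq_mul, mul_comm]
      congr 2
      simp
    have hb : ∑ v : V, ((nb A v ∩ W).card : ℝ) = ∑ w ∈ W, ((nb A w).card : ℝ) := by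
      have h3 : ∀ v : V, ((nb A v ∩ W).card : ℝ) = ∑ w ∈ W, (if w ∈ nb A v then (1 : ℝ) else 0) := by
        intro v
        rw [← Finset.sum_filter, Finset.sum_const, nsmul_eq_mul, mul_one, Finset.filter_mem_eq_inter,
          Finset.inter_comm]
      rw [Finset.sum_congr rfl fun v _ => h3 v, Finset.sum_comm]
      refine Finset.sum_congr rfl fun w _ => ?_
      rw [← Finset.sum_filter, Finset.sum_const, nsmul_eq_mul, mul_one]
      congr 2
      ext v
      rw [mem_filter, nb_symm]
      simp
    have hc : ∑ w ∈ W, ((nb A w).card : ℝ) ≤ d * W.card := by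
      calc ∑ w ∈ W, ((nb A w).card : ℝ) ≤ ∑ w ∈ W, d := Finset.sum_le_sum fun w _ => hdeg w
        _ = d * W.card := by rw [Finset.sum_const, nsmul_eq_mul, mul_comm]
    rw [ha, hb]
    linarith
  have hne : P.Nonempty := ⟨∅, by rw [hP, mem_filter]; exact ⟨mem_univ _, fun u hu => by simp at hu⟩⟩
  have h3 : ∑ W ∈ P, (Fintype.card V : ℝ) * (Real.log d / 16) ≤ ∑ W ∈ P, 2 * d * (W.card : ℝ) := by
    rw [Finset.sum_const, nsmul_eq_mul]
    calc (P.card : ℝ) * ((Fintype.card V : ℝ) * (Real.log d / 16))
        = (Fintype.card V : ℝ) * (Real.log d / 16 * P.card) := by ring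
      _ ≤ _ := h1
      _ ≤ _ := Finset.sum_le_sum h2
  obtain ⟨W, hW, hle⟩ := Finset.exists_le_of_sum_le hne h3
  refine ⟨W, (mem_filter.1 hW).2, ?_⟩
  have : (0 : ℝ) ≤ d * W.card := by positivity
  nlinarith

end Pool.Agent.E8helper61.DR
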