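import Pool.Agent.E8helper61.DR.Defs

/-!
# The recursion for independent sets and transitive tournaments
-/

set_option autoImplicit false

namespace Pool.Agent.E8helper61.DR

open Finset Classical

/-- Every directed graph with at least `B` vertices has an independent set of size `n` or a
transitive tournament of size `m`. -/
def Forces (B : ℝ) (n m : ℕ) : Prop := ∀ (V : Type) [Fintype V] (A : V → V → Prop),
  (∀ v, ¬ A v v) → B ≤ Fintype.card V →
  (∃ S : Finset V, S.card = n ∧ Indep A S) ∨ (∃ f : Fin m → V, ∀ i j, i < j → A (f i) (f j))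

section
variable {V : Type} [Fintype V] (A : V → V → Prop)

lemma Forces.on {B : ℝ} {n m : ℕ} (h : Forces B n m) (hA : ∀ v, ¬ A v v) (S : Finset V)
    (hS : B ≤ S.card) : (∃ T : Finset V, T.card = n ∧ Indep A T) ∨
      (∃ f : Fin m → V, (∀ i, f i ∈ S) ∧ ∀ i j, i < j → A (f i) (f j)) := by
  rcases h S (fun a b => A a.1 b.1) (fun v => hA v.1) (by simpa using hS) with ⟨T, hT, hi⟩ | ⟨f, hf⟩
  · left
    refine ⟨T.map (Function.Embedding.subtype _), by rw [card_map, hT], ?_⟩
    intro a ha b hb
    rw [mem_map] at ha hb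
    obtain ⟨a', ha', rfl⟩ := ha
    obtain ⟨b', hb', rfl⟩ := hb
    exact hi a' ha' b' hb'
  · right
    exact ⟨fun i => (f i).1, fun i => (f i).2, fun i j hij => hf i j hij⟩

lemma cons_tt {m : ℕ} (v : V) (f : Fin m → V) (hf : ∀ i j, i < j → A (f i) (f j))
    (hv : ∀ i, A v (f i)) : ∀ i j : Fin (m + 1), i < j →
      A ((Fin.cons v f : Fin (m + 1) → V) i) ((Fin.cons v f : Fin (m + 1) → V) j) := by
  intro i j hij
  induction j using Fin.cases with
  | zero => exact absurd hij (by simp)
  | succ j =>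
    induction i using Fin.cases with
    | zero => simpa using hv j
    | succ i => simpa using hf i j (by simpa using hij)

/-- the out-neighbours -/
noncomputable def out (v : V) : Finset V := univ.filter fun u => A v u

lemma arcs_univ : arcs A univ = ∑ v : V, (out A v).card := by
  unfold arcs
  rw [card_filter, sum_product]
  refine sum_congr rfl fun v _ => ?_
  rw [out, card_filter]

lemma tris_univ : tris A univ ≤ ∑ u : V, ∑ v ∈ out A u, (out A u ∩ out A v).card := by
  unfold tris
  rw [card_filter, sum_product]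
  refine sum_le_sum fun u _ => ?_
  rw [sum_product, out, sum_filter]
  refine sum_le_sum fun v _ => ?_
  by_cases h : A u v
  · rw [if_pos h, ← card_filter]
    refine card_le_card fun w hw => ?_
    rw [mem_filter] at hw
    refine mem_inter.2 ⟨?_, ?_⟩
    · exact mem_filter.2 ⟨mem_univ _, hw.2.2.1⟩
    · exact mem_filter.2 ⟨mem_univ _, hw.2.2.2⟩
  · rw [if_neg h]
    simp [h]

/-- The version for the average degree. -/
lemma loc_avg (hL : S_LOC) (hA : ∀ v, ¬ A v v) (U : Finset V) (hU : TransFree A U) (δ : ℝ)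
    (hδ : 1 ≤ 4 * δ) (ha : (arcs A U : ℝ) ≤ δ * U.card) :
    ∃ W : Finset V, Indep A W ∧ (U.card : ℝ) * Real.log (4 * δ) ≤ 512 * δ * W.card := by
  set nbU : V → Finset V := fun v => U.filter fun u => A u v ∨ A v u with hnbU
  set V' : Finset V := U.filter fun v => ((nbU v).card : ℝ) ≤ 4 * δ with hV'
  have hδ0 : 0 < δ := by linarith
  -- number of vertices of small degree
  have hsum : ∑ v ∈ U, ((nbU v).card : ℝ) ≤ 2 * arcs A U := by
    have h1 : ∀ v ∈ U, (nbU v).card ≤ (U.filter fun u => A u v).card + (U.filter fun u => A v u).card := by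
      intro v _
      rw [hnbU]
      simp only [filter_or]
      exact card_union_le _ _
    have h2 : ∑ v ∈ U, (U.filter fun u => A v u).card = arcs A U := by
      unfold arcs
      rw [card_filter, sum_product]
      refine sum_congr rfl fun v _ => ?_
      rw [card_filter]
    have h3 : ∑ v ∈ U, (U.filter fun u => A u v).card = arcs A U := by
      unfold arcs
      rw [card_filter, sum_product_right]
      refine sum_congr rfl fun v _ => ?_
      rw [card_filter]
    have h4 : ∑ v ∈ U, (nbU v).card ≤ 2 * arcs A U := by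
      calc ∑ v ∈ U, (nbU v).card
          ≤ ∑ v ∈ U, ((U.filter fun u => A u v).card + (U.filter fun u => A v u).card) :=
            sum_le_sum h1
        _ = 2 * arcs A U := by rw [sum_add_distrib, h2, h3]; ring
    exact_mod_cast h4
  have hhalf : (U.card : ℝ) ≤ 2 * V'.card := by
    have h1 : ∑ v ∈ U.filter (fun v => ¬ ((nbU v).card : ℝ) ≤ 4 * δ), (4 * δ)
        ≤ ∑ v ∈ U, ((nbU v).card : ℝ) := by
      refine le_trans (sum_le_sum (fun v hv => ?_))
        (sum_le_sum_of_subset_of_nonneg (filter_subset _ _) fun _ _ _ => Nat.cast_nonneg _)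
      exact (not_le.1 (mem_filter.1 hv).2).le
    rw [sum_const, nsmul_eq_mul] at h1
    have h2 := Finset.card_filter_add_card_filter_not (s := U) (fun v => ((nbU v).card : ℝ) ≤ 4 * δ)
    have h3 : (U.card : ℝ) = V'.card + (U.filter (fun v => ¬ ((nbU v).card : ℝ) ≤ 4 * δ)).card := by
      rw [hV']
      exact_mod_cast h2.symm
    have h4 : ((U.filter (fun v => ¬ ((nbU v).card : ℝ) ≤ 4 * δ)).card : ℝ) * (4 * δ)
        ≤ 2 * (δ * U.card) := h1.trans (hsum.trans (by linarith))
    have h5 : ((U.filter (fun v => ¬ ((nbU v).card : ℝ) ≤ 4 * δ)).card : ℝ) * 2 ≤ U.card := by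
      have : δ * (((U.filter (fun v => ¬ ((nbU v).card : ℝ) ≤ 4 * δ)).card : ℝ) * 4)
          ≤ δ * (2 * U.card) := by linarith
      have := le_of_mul_le_mul_left this hδ0
      linarith
    linarith
  obtain ⟨W, hW, hle⟩ := hL V' (fun a b => A a.1 b.1) (fun v => hA v.1)
    (fun u _ v _ w _ => hU u.1 (mem_filter.1 u.2).1 v.1 (mem_filter.1 v.2).1 w.1
      (mem_filter.1 w.2).1) (4 * δ) hδ (fun v => by
        have hv := (mem_filter.1 v.2).2
        refine le_trans ?_ hv
        have : (nb (fun a b : V' => A a.1 b.1) v).card ≤ (nbU v.1).card := by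
          rw [← card_map (Function.Embedding.subtype _)]
          refine card_le_card fun u hu => ?_
          rw [mem_map] at hu
          obtain ⟨u', hu', rfl⟩ := hu
          rw [nb, mem_filter] at hu'
          rw [hnbU]
          exact mem_filter.2 ⟨(mem_filter.1 u'.2).1, hu'.2⟩
        exact_mod_cast this)
  refine ⟨W.map (Function.Embedding.subtype _), ?_, ?_⟩
  · intro a ha b hb
    rw [mem_map] at ha hb
    obtain ⟨a', ha', rfl⟩ := ha
    obtain ⟨b', hb', rfl⟩ := hb
    exact hW a' ha' b' hb'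
  · rw [card_map]
    rw [Fintype.card_coe] at hle
    have hlog : 0 ≤ Real.log (4 * δ) := Real.log_nonneg hδ
    have := mul_le_mul_of_nonneg_right hhalf hlog
    nlinarith

end

/-- The recursion. -/
theorem step (hL : S_LOC) (hS : S_SAM) {n m : ℕ} (hn : 2 ≤ n) {D K : ℝ} (hK : 1 ≤ K)
    (hDK : K * Real.sqrt n ≤ D) (h1 : Forces K n m) (h2 : Forces D n (m + 1)) :
    Forces (16384 * D * n / Real.log n) n (m + 2) := by
  intro V _ A hA hcard
  by_contra hcon
  push Not at hcon
  obtain ⟨hind, htt⟩ := hcon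
  have hn0 : (2 : ℝ) ≤ n := by exact_mod_cast hn
  have hlogn : 0 < Real.log n := Real.log_pos (by linarith)
  have hsn : 1 ≤ Real.sqrt n := Real.one_le_sqrt.2 (by linarith)
  have hKD : K ≤ D := by nlinarith
  have hD : 1 ≤ D := hK.trans hKD
  -- out-degrees
  have hout : ∀ v, ((out A v).card : ℝ) ≤ D := by
    intro v
    by_contra hlt
    push Not at hlt
    rcases h2.on A hA (out A v) hlt.le with ⟨T, hT, hi⟩ | ⟨f, hf, hf'⟩
    · exact hind T hT hi
    · obtain ⟨i, j, hij, hn'⟩ := htt (Fin.cons v f)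
      exact hn' (cons_tt A v f hf' (fun i => by
        have := hf i
        rw [out, mem_filter] at this
        exact this.2) i j hij)
  have hcom : ∀ u v, A u v → ((out A u ∩ out A v).card : ℝ) ≤ K := by
    intro u v huv
    by_contra hlt
    push Not at hlt
    rcases h1.on A hA (out A u ∩ out A v) hlt.le with ⟨T, hT, hi⟩ | ⟨f, hf, hf'⟩
    · exact hind T hT hi
    · have hfu : ∀ i, A u (f i) := fun i => by
        have := (mem_inter.1 (hf i)).1
        rw [out, mem_filter] at this
        exact this.2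
      have hfv : ∀ i, A v (f i) := fun i => by
        have := (mem_inter.1 (hf i)).2
        rw [out, mem_filter] at this
        exact this.2
      obtain ⟨i, j, hij, hn'⟩ := htt (Fin.cons u (Fin.cons v f : Fin (m + 1) → V))
      refine hn' (cons_tt A u _ (cons_tt A v f hf' hfv) (fun i => ?_) i j hij)
      induction i using Fin.cases with
      | zero => simpa using huv
      | succ i => simpa using hfu i
  set N : ℝ := (Fintype.card V : ℝ) with hN
  have harcs : (arcs A univ : ℝ) ≤ N * D := by
    rw [arcs_univ]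
    push_cast
    calc ∑ v : V, ((out A v).card : ℝ) ≤ ∑ v : V, D := sum_le_sum fun v _ => hout v
      _ = N * D := by rw [sum_const, nsmul_eq_mul, card_univ]
  have htris : (tris A univ : ℝ) ≤ N * D * K := by
    have h3 : (tris A univ : ℝ) ≤ ∑ u : V, ∑ v ∈ out A u, ((out A u ∩ out A v).card : ℝ) := by
      have := tris_univ A
      exact_mod_cast this
    refine h3.trans ?_
    calc ∑ u : V, ∑ v ∈ out A u, ((out A u ∩ out A v).card : ℝ)
        ≤ ∑ u : V, ∑ v ∈ out A u, K := by
          refine sum_le_sum fun u _ => sum_le_sum fun v hv => hcom u v ?_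
          rw [out, mem_filter] at hv
          exact hv.2
      _ = ∑ u : V, ((out A u).card : ℝ) * K := by
          refine sum_congr rfl fun u _ => ?_
          rw [sum_const, nsmul_eq_mul]
      _ ≤ ∑ u : V, D * K := sum_le_sum fun u _ => mul_le_mul_of_nonneg_right (hout u) (by linarith)
      _ = N * D * K := by rw [sum_const, nsmul_eq_mul, card_univ]; ring
  -- the sampling parameter
  set s : ℝ := Real.sqrt (D * K) with hs
  have hs1 : 1 ≤ s := by
    rw [hs]
    exact Real.one_le_sqrt.2 (by nlinarith)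
  have hs2 : s ^ 2 = D * K := Real.sq_sqrt (by nlinarith)
  obtain ⟨q, hq1, hq2⟩ : ∃ q : ℕ, 2 * s ≤ q ∧ (q : ℝ) ≤ 3 * s :=
    ⟨⌈2 * s⌉₊, Nat.le_ceil _, (Nat.ceil_lt_add_one (by linarith)).le.trans (by linarith)⟩
  have hq0 : 0 < (q : ℝ) := by linarith
  have hq0' : 0 < q := by exact_mod_cast hq0
  obtain ⟨U, hU, hUN, hUa⟩ := hS V A hA D K hD hK q hq0' (by nlinarith) harcs htris
  set δ : ℝ := 4 * D / q with hδdef
  -- 4 δ = 16 D / q ≥ (16 / 3) D / s ≥ ... ≥ n ^ (1/4)
  have hδ : 4 * δ * q = 16 * D := by rw [hδdef]; field_simp; ring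
  have hDs : s * Real.sqrt (Real.sqrt n) ≤ D := by
    have h4 : s ≤ Real.sqrt D * Real.sqrt K := by
      rw [hs, Real.sqrt_mul (by linarith)]
    have h5 : Real.sqrt K * Real.sqrt (Real.sqrt n) ≤ Real.sqrt D := by
      rw [← Real.sqrt_mul (by linarith)]
      exact Real.sqrt_le_sqrt hDK
    calc s * Real.sqrt (Real.sqrt n) ≤ (Real.sqrt D * Real.sqrt K) * Real.sqrt (Real.sqrt n) :=
          mul_le_mul_of_nonneg_right h4 (Real.sqrt_nonneg _)
      _ = Real.sqrt D * (Real.sqrt K * Real.sqrt (Real.sqrt n)) := by ring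
      _ ≤ Real.sqrt D * Real.sqrt D := mul_le_mul_of_nonneg_left h5 (Real.sqrt_nonneg _)
      _ = D := Real.mul_self_sqrt (by linarith)
  set r : ℝ := Real.sqrt (Real.sqrt n) with hr
  have hr1 : 1 ≤ r := by rw [hr]; exact Real.one_le_sqrt.2 hsn
  have hδr : r ≤ 4 * δ := by
    have h6 : r * q ≤ 4 * δ * q := by
      rw [hδ]
      have : r * q ≤ r * (3 * s) := mul_le_mul_of_nonneg_left hq2 (by linarith)
      nlinarith
    exact le_of_mul_le_mul_right h6 hq0
  have hδ1 : 1 ≤ 4 * δ := hr1.trans hδr
  obtain ⟨W, hW, hWle⟩ := loc_avg A hL hA U hU δ hδ1 (by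
    rw [hδdef, div_mul_eq_mul_div, le_div_iff₀ hq0]
    exact hUa)
  have hWn : (W.card : ℝ) < n := by
    by_contra hge
    push Not at hge
    have hge' : n ≤ W.card := by exact_mod_cast hge
    obtain ⟨T, hTW, hT⟩ := Finset.exists_subset_card_eq hge'
    exact hind T hT (fun a ha b hb => hW a (hTW ha) b (hTW hb))
  have hlogr : Real.log r = Real.log n / 4 := by
    rw [hr, Real.log_sqrt (Real.sqrt_nonneg _), Real.log_sqrt (by positivity)]
    ring
  have hlogδ : Real.log n / 4 ≤ Real.log (4 * δ) := by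
    rw [← hlogr]
    exact Real.log_le_log (by linarith) hδr
  -- combine
  have hδpos : 0 < δ := by linarith
  have h7 : (U.card : ℝ) * (Real.log n / 4) ≤ 512 * δ * W.card :=
    (mul_le_mul_of_nonneg_left hlogδ (Nat.cast_nonneg _)).trans hWle
  have h8 : (U.card : ℝ) * (Real.log n / 4) < 512 * δ * n := by
    refine h7.trans_lt ?_
    exact mul_lt_mul_of_pos_left hWn (by linarith)
  have h9 : N * (Real.log n / 4) ≤ 2 * q * (U.card * (Real.log n / 4)) := by
    have := mul_le_mul_of_nonneg_right hUN (show 0 ≤ Real.log n / 4 by linarith)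
    linarith
  have h10 : N * (Real.log n / 4) < 2 * q * (512 * δ * n) :=
    h9.trans_lt (mul_lt_mul_of_pos_left h8 (by linarith))
  have h11 : 2 * q * (512 * δ * n) = 4096 * D * n := by
    rw [hδdef]; field_simp; ring
  rw [h11] at h10
  have h12 : 16384 * D * n / Real.log n ≤ N := hcard
  rw [div_le_iff₀ hlogn] at h12
  linarith

/-- `Forces` for `m = 1`. -/
theorem forces_one (n : ℕ) : Forces 1 n 1 := by
  intro V _ A _ hc
  right
  have : 0 < Fintype.card V := by
    by_contra h
    push Not at h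
    have h0 : Fintype.card V = 0 := by omega
    rw [h0] at hc
    norm_num at hc
  obtain ⟨v⟩ := Fintype.card_pos_iff.1 this
  exact ⟨fun _ => v, fun i j hij => absurd hij (by
    have := Subsingleton.elim i j
    rw [this]
    exact lt_irrefl _)⟩

/-- `Forces` for `m = 2`. -/
theorem forces_two (n : ℕ) : Forces n n 2 := by
  intro V _ A hA hc
  by_cases h : ∃ u v, A u v
  · right
    obtain ⟨u, v, huv⟩ := h
    refine ⟨![u, v], ?_⟩
    intro i j hij
    fin_cases i <;> fin_cases j <;> simp_all
  · left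
    push Not at h
    have hc' : n ≤ (univ : Finset V).card := by
      rw [card_univ]
      exact_mod_cast hc
    obtain ⟨T, _, hT⟩ := Finset.exists_subset_card_eq hc'
    exact ⟨T, hT, fun a _ b _ => h a b⟩

/-- The bound. -/
noncomputable def bd (n : ℕ) (m : ℕ) : ℝ :=
  16384 ^ (m - 2) * (n : ℝ) ^ (m - 1) / Real.log n ^ (m - 2)

lemma log_le_sqrt {x : ℝ} (hx : 1 ≤ x) : Real.log x ≤ Real.sqrt x := by
  have h1 : 1 ≤ Real.sqrt x := Real.one_le_sqrt.2 hx
  set y := Real.sqrt (Real.sqrt x) with hy
  have hy1 : 1 ≤ y := Real.one_le_sqrt.2 h1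
  have hy2 : y ^ 2 = Real.sqrt x := Real.sq_sqrt (by linarith)
  have hx2 : Real.log x = 4 * Real.log y := by
    rw [hy, Real.log_sqrt (by linarith), Real.log_sqrt (by linarith)]
    ring
  have h3 : Real.log y ≤ y - 1 := Real.log_le_sub_one_of_pos (by linarith)
  rw [hx2, ← hy2]
  nlinarith [sq_nonneg (y - 2)]

theorem forces_all (hL : S_LOC) (hS : S_SAM) {n : ℕ} (hn : 2 ≤ n) :
    ∀ m : ℕ, Forces (bd n (m + 2)) n (m + 2) := by
  have hn0 : (2 : ℝ) ≤ n := by exact_mod_cast hn
  have hlogn : 0 < Real.log n := Real.log_pos (by linarith)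
  have hsn : 1 ≤ Real.sqrt n := Real.one_le_sqrt.2 (by linarith)
  have hss : Real.sqrt n * Real.sqrt n = n := Real.mul_self_sqrt (by linarith)
  have hls : Real.log n ≤ Real.sqrt n := log_le_sqrt (by linarith)
  have hbd2 : bd n 2 = n := by simp [bd]
  have hrec : ∀ m, bd n (m + 3) = 16384 * bd n (m + 2) * n / Real.log n := by
    intro m
    simp only [bd, show m + 3 - 2 = m + 1 by omega, show m + 3 - 1 = m + 2 by omega,
      show m + 2 - 2 = m by omega, show m + 2 - 1 = m + 1 by omega]
    field_simp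
    ring
  have hratio : ∀ m, bd n (m + 2) * Real.sqrt n ≤ bd n (m + 3) ∧ 1 ≤ bd n (m + 2) := by
    intro m
    induction m with
    | zero =>
      have h1 : 1 ≤ bd n 2 := by rw [hbd2]; linarith
      refine ⟨?_, h1⟩
      rw [hrec 0, le_div_iff₀ hlogn, zero_add, hbd2]
      have : Real.sqrt n * Real.log n ≤ Real.sqrt n * Real.sqrt n :=
        mul_le_mul_of_nonneg_left hls (by linarith)
      nlinarith
    | succ m ih =>
      have h1 : 1 ≤ bd n (m + 3) := by nlinarith [ih.1, ih.2]
      refine ⟨?_, h1⟩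
      rw [show m + 1 + 2 = m + 3 by omega, show m + 1 + 3 = (m + 1) + 3 by omega, hrec (m + 1),
        le_div_iff₀ hlogn, show m + 1 + 2 = m + 3 by omega]
      have : Real.sqrt n * Real.log n ≤ Real.sqrt n * Real.sqrt n :=
        mul_le_mul_of_nonneg_left hls (by linarith)
      have h2 : bd n (m + 3) * (Real.sqrt n * Real.log n) ≤ bd n (m + 3) * n := by
        apply mul_le_mul_of_nonneg_left _ (by linarith)
        linarith
      nlinarith
  have hboth : ∀ m, Forces (bd n (m + 2)) n (m + 2) ∧ Forces (bd n (m + 3)) n (m + 3) := by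
    intro m
    induction m with
    | zero =>
      have h2 : Forces (bd n 2) n 2 := by rw [hbd2]; exact forces_two n
      refine ⟨h2, ?_⟩
      have := step hL hS hn le_rfl (show (1 : ℝ) * Real.sqrt n ≤ bd n 2 by rw [hbd2]; nlinarith)
        (forces_one n) h2
      rw [show (0 + 3 : ℕ) = 1 + 2 by omega]
      have h3 := hrec 0
      rw [zero_add, zero_add] at h3
      rw [show 1 + 2 = 3 by omega, h3]
      exact this
    | succ m ih =>
      refine ⟨ih.2, ?_⟩
      have := step hL hS hn (hratio m).2 (hratio m).1 ih.1 ih.2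
      rw [show m + 1 + 3 = (m + 1) + 3 by omega, hrec (m + 1)]
      exact this
  exact fun m => (hboth m).1

end Pool.Agent.E8helper61.DR
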